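import Pool.Agent.helper65.GF.SpecG

set_option autoImplicit false

namespace Pool.Agent.GD

open Finset Metric Filter Topology

theorem YGO : YGO_stmt := by
  intro p f hf hE n hn
  obtain ⟨hd, _, Φ, c, hG, hc⟩ := hE
  have hser : Ser (fun m => if m % 2 = 0 then N2b689f5b.coeff f (m / 2) else 0) (fun z => f (z ^ 2)) := by
    intro z hz
    have hz2 : z ^ 2 ∈ ball (0 : ℂ) 1 := by
      rw [mem_ball_zero_iff] at hz ⊢
      rw [norm_pow]
      exact pow_lt_one₀ (norm_nonneg z) hz (by norm_num)
    have h1 := CO1 f hf (z ^ 2) hz2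
    have hinj : Function.Injective (fun k : ℕ => 2 * k) := fun a b hab => by
      dsimp only at hab
      omega
    refine (hinj.hasSum_iff (f := fun m : ℕ => (if m % 2 = 0 then N2b689f5b.coeff f (m / 2) else 0) * z ^ m) ?_).mp ?_
    · intro x hx
      have hx2 : x % 2 ≠ 0 := by
        intro h
        exact hx ⟨x / 2, by dsimp only; omega⟩
      rw [if_neg hx2, zero_mul]
    · have h2 : ((fun m : ℕ => (if m % 2 = 0 then N2b689f5b.coeff f (m / 2) else 0) * z ^ m) ∘ fun k : ℕ => 2 * k) =
          fun k => N2b689f5b.coeff f k * (z ^ 2) ^ k := by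
        funext k
        have h3 : 2 * k % 2 = 0 := by omega
        have h4 : 2 * k / 2 = k := by omega
        simp only [Function.comp_apply, h3, h4, if_true]
        rw [pow_mul]
      rw [h2]
      exact h1
  have hco := CO2 _ _ _ hser (CO1 _ hd)
  have hco2 : ∀ k : ℕ, N2b689f5b.coeff f k = N2b689f5b.coeff (fun z => f (z ^ 2)) (2 * k) := by
    intro k
    rw [← congrFun hco (2 * k)]
    have h3 : 2 * k % 2 = 0 := by omega
    have h4 : 2 * k / 2 = k := by omega
    simp only [h3, h4, if_true]
  exact ITG p f ⟨hf, Φ, c, hG, fun k hk => by rw [hco2 k, hc k hk]⟩ n hn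

end Pool.Agent.GD
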